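import Pool.Agent.MP_47bb2a_mp.H42.Half

/-! A constrained de Finetti reduction for separable states in all dimensions, with half the
single-copy relative entropy of entanglement as exponent per copy. -/

open MeasureTheory Pool.Agent.MP_47bb2a_mp.H97 Pool.Agent.MP_47bb2a_mp.H42

namespace Pool.Agent.Results.MP_47bb2a_mp.HalfExponent

theorem result (dA dB : ℕ) (hA : 0 < dA) (hB : 0 < dB) :
    ∃ μ : Measure (States (Fin dA × Fin dB)), IsProbabilityMeasure μ ∧
      ∀ Δ > (0 : ℝ), ∃ N : ℕ, ∀ n, N ≤ n → ∀ σ ∈ Sep (Fin dA) (Fin dB) n, Symm σ →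
        Dominated μ
          (fun ω => (EReal.exp (-((n / 2 : ℝ) * relEntSep1 ω.1) + (n * Δ : ℝ))).toReal) σ :=
  have : Nonempty (Fin dA) := ⟨⟨0, hA⟩⟩
  have : Nonempty (Fin dB) := ⟨⟨0, hB⟩⟩
  dominated_half

end Pool.Agent.Results.MP_47bb2a_mp.HalfExponent
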