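import Pool.Agent.MP_47bb2a_mp.H97.PT

/-! A constrained de Finetti reduction in all dimensions with the logarithmic negativity as
exponent. -/

open MeasureTheory Pool.Agent.MP_47bb2a_mp.H97
open scoped ComplexOrder

namespace Pool.Agent.Results.MP_47bb2a_mp.NegativityWeight

theorem result (dA dB : ℕ) (hA : 0 < dA) (hB : 0 < dB) :
    ∃ μ : Measure (States (Fin dA × Fin dB)), IsProbabilityMeasure μ ∧
      ∀ Δ > (0 : ℝ), ∃ N : ℕ, ∀ n, N ≤ n →
        ∀ σ : Matrix (Fin n → Fin dA × Fin dB) (Fin n → Fin dA × Fin dB) ℂ,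
          (σ ∈ Sep (Fin dA) (Fin dB) n ∨ σ.PosSemidef ∧ traceNorm (ptn σ) ≤ 1) → Symm σ →
          Dominated μ (fun ω => Real.exp (-(n * Real.log (traceNorm (pt ω.1))) + n * Δ)) σ :=
  have : Nonempty (Fin dA) := ⟨⟨0, hA⟩⟩
  have : Nonempty (Fin dB) := ⟨⟨0, hB⟩⟩
  dominated_neg

end Pool.Agent.Results.MP_47bb2a_mp.NegativityWeight
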