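import Pool.Agent.MP_47bb2a_mp.H97.Sep

/-! The constrained de Finetti reduction for separable states holds whenever one of the two
parties is a qubit. -/

open MeasureTheory Pool.Agent.MP_47bb2a_mp.H97

namespace Pool.Agent.Results.MP_47bb2a_mp.QubitSide

theorem result (dA dB : ℕ) (hA : 0 < dA) (hB : 0 < dB) (h : dA = 2 ∨ dB = 2) :
    ∃ μ : Measure (States (Fin dA × Fin dB)), IsProbabilityMeasure μ ∧
      (∀ᵐ ω ∂μ, ω.1 ∈ Sep1 (Fin dA) (Fin dB)) ∧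
      ∀ Δ > (0 : ℝ), ∃ N : ℕ, ∀ n, N ≤ n → ∀ σ ∈ Sep (Fin dA) (Fin dB) n, Symm σ →
        Dominated μ (fun ω => (EReal.exp (-relEntSep (tp n ω.1) + (n * Δ : ℝ))).toReal) σ := by
  have : Nonempty (Fin dA) := ⟨⟨0, hA⟩⟩
  have : Nonempty (Fin dB) := ⟨⟨0, hB⟩⟩
  refine dominated_sep fun G h1 h2 n a b => ?_
  rcases h with rfl | rfl
  · exact prod_tp h1 h2 n a b
  · exact prod_tp' h1 h2 n a b

end Pool.Agent.Results.MP_47bb2a_mp.QubitSide
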